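import Mathlib

/-!
# Maximal multiplicity in almost Golomb sequences

For every `r ≥ 5` the largest multiplicity in the almost Golomb sequence of order `r` is the
multiplicity of `r - 1`.
-/

set_option autoImplicit false
set_option linter.unusedVariables false

open Finset

namespace Pool.Agent.Results.MP_c02c06_co.MaxMult

/-- The sequences of positive integers (indexed from `1`; `a 0 = 0`, and indices `k ≤ 0` are replaced
by `0` by the truncated subtraction of natural numbers) which are nondecreasing and satisfy
`a(a(n) + a(n-1) + ⋯ + a(n-r+1)) = n` for all `n ≥ 1`. -/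
structure IsSolution (r : ℕ) (a : ℕ → ℕ) : Prop where
  zero : a 0 = 0
  pos : ∀ n, 1 ≤ n → 1 ≤ a n
  mono : ∀ n, 1 ≤ n → a n ≤ a (n + 1)
  eq : ∀ n, 1 ≤ n → a (∑ i ∈ range r, a (n - i)) = n

/-- The almost Golomb sequence of order `r`: the solution in which each term is as small as possible,
given the earlier terms. -/
def IsAlmostGolomb (r : ℕ) (a : ℕ → ℕ) : Prop :=
  IsSolution r a ∧ ∀ b, IsSolution r b → ∀ n, (∀ i, i < n → b i = a i) → a n ≤ b n

/-- The number of times `n` occurs. -/
noncomputable def N (a : ℕ → ℕ) (n : ℕ) : ℕ∞ := {i | 1 ≤ i ∧ a i = n}.encard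

/-- The supremum of the multiplicities. -/
noncomputable def M (a : ℕ → ℕ) : ℕ∞ := ⨆ n, ⨆ (_ : 1 ≤ n), N a n

/-! ### Construction -/

/-- the constructed sequence -/
def alm (r : ℕ) : ℕ → ℕ
  | 0 => 0
  | 1 => 1
  | 2 => 2
  | 3 => 2
  | n + 4 =>
    if n + 4 = ∑ i ∈ range r, (if h : alm r (n + 3) + 1 - i < n + 4 then
      alm r (alm r (n + 3) + 1 - i) else 0) then alm r (n + 3) + 1
    else alm r (n + 3)
termination_by n => n
decreasing_by all_goals omega

/-- the sums -/
def B (r : ℕ) (v : ℕ) : ℕ := ∑ i ∈ range r, alm r (v - i)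

theorem alm0 (r : ℕ) : alm r 0 = 0 := by rw [alm]
theorem alm1 (r : ℕ) : alm r 1 = 1 := by rw [alm]
theorem alm2 (r : ℕ) : alm r 2 = 2 := by rw [alm]
theorem alm3 (r : ℕ) : alm r 3 = 2 := by rw [alm]

theorem alm_step' (r n : ℕ) : alm r (n + 1) = alm r n ∨ alm r (n + 1) = alm r n + 1 := by
  match n with
  | 0 => right; rw [alm0, alm1]
  | 1 => right; rw [alm1, alm2]
  | 2 => left; rw [alm2, alm3]
  | n + 3 =>
    show alm r (n + 4) = alm r (n + 3) ∨ alm r (n + 4) = alm r (n + 3) + 1
    rw [alm]
    split_ifs
    · exact Or.inr rfl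
    · exact Or.inl rfl

theorem alm_mono (r : ℕ) : Monotone (alm r) := by
  apply monotone_nat_of_le_succ
  intro n
  rcases alm_step' r n with h | h <;> omega

theorem alm_le (r n : ℕ) : alm r (n + 3) ≤ n + 2 := by
  induction n with
  | zero => rw [alm3]
  | succ n ih =>
    have := alm_step' r (n + 3)
    have e : n + 1 + 3 = n + 3 + 1 := by ring
    rw [e]; omega

theorem alm_le' (r n : ℕ) : alm r n ≤ n := by
  match n with
  | 0 => rw [alm0]
  | 1 => rw [alm1]
  | 2 => rw [alm2]
  | n + 3 => have := alm_le r n; omega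

theorem alm_step (r n : ℕ) (hn : 4 ≤ n) :
    alm r n = if n = B r (alm r (n - 1) + 1) then alm r (n - 1) + 1 else alm r (n - 1) := by
  obtain ⟨m, rfl⟩ := Nat.exists_eq_add_of_le' hn
  rw [alm]
  have h1 := alm_le r m
  have e : m + 4 - 1 = m + 3 := by omega
  rw [e]
  have : ∑ i ∈ range r, (if h : alm r (m + 3) + 1 - i < m + 4 then
      alm r (alm r (m + 3) + 1 - i) else 0) = B r (alm r (m + 3) + 1) := by
    unfold B
    apply Finset.sum_congr rfl
    intro i _
    rw [dif_pos (by omega)]
  rw [this]

theorem alm_pos (r n : ℕ) (hn : 1 ≤ n) : 1 ≤ alm r n := by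
  rw [← alm1 r]; exact alm_mono r hn

theorem alm_add (r n t : ℕ) : alm r (n + t) ≤ alm r n + t := by
  induction t with
  | zero => simp
  | succ t ih =>
    have := alm_step' r (n + t)
    have e : n + (t + 1) = n + t + 1 := by ring
    rw [e]; omega

theorem B_succ (r v : ℕ) (hr : 1 ≤ r) :
    B r (v + 1) + alm r (v + 1 - r) = B r v + alm r (v + 1) := by
  obtain ⟨s, rfl⟩ := Nat.exists_eq_add_of_le' hr
  unfold B
  rw [Finset.sum_range_succ', Finset.sum_range_succ]
  have e1 : ∀ i, v + 1 - (i + 1) = v - i := fun i => by omega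
  have e2 : v + 1 - (s + 1) = v - s := by omega
  rw [e2]
  simp only [e1, Nat.sub_zero]
  ring

theorem B3 (r : ℕ) (hr : 3 ≤ r) : B r 3 = 5 := by
  obtain ⟨s, rfl⟩ := Nat.exists_eq_add_of_le' hr
  unfold B
  rw [Finset.sum_range_succ', Finset.sum_range_succ', Finset.sum_range_succ']
  have : ∑ i ∈ range s, alm (s + 3) (3 - (i + 1 + 1 + 1)) = 0 := by
    apply Finset.sum_eq_zero
    intro i _
    have : 3 - (i + 1 + 1 + 1) = 0 := by omega
    rw [this, alm0]
  rw [this]
  show 0 + alm (s + 3) 1 + alm (s + 3) 2 + alm (s + 3) 3 = 5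
  rw [alm1, alm2, alm3]

/-- the first occurrence of `v` -/
def F (r v : ℕ) : ℕ := if v ≤ 2 then v else B r v

theorem F0 (r : ℕ) : F r 0 = 0 := rfl
theorem F1 (r : ℕ) : F r 1 = 1 := rfl
theorem F2 (r : ℕ) : F r 2 = 2 := rfl
theorem F3 (r : ℕ) (hr : 3 ≤ r) : F r 3 = 5 := by
  unfold F; rw [if_neg (by norm_num)]; exact B3 r hr

theorem F_ge (r v : ℕ) (hv : 3 ≤ v) : F r v = B r v := by
  unfold F; rw [if_neg (by omega)]

theorem F_succ_le (r v : ℕ) (hr : 3 ≤ r) : F r (v + 1) ≤ F r v + r := by
  match v with
  | 0 => rw [F0, F1]; omega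
  | 1 => rw [F1, F2]; omega
  | 2 => rw [F2, F3 r hr]; omega
  | v + 3 =>
    rw [F_ge r (v + 3) (by omega), F_ge r (v + 3 + 1) (by omega)]
    have h1 := B_succ r (v + 3) (by omega)
    have h2 : alm r (v + 3 + 1) ≤ alm r (v + 3 + 1 - r) + r :=
      (alm_mono r (by omega)).trans (alm_add r (v + 3 + 1 - r) r)
    omega

/-- The main property of the construction: `F v` is the first index with value `v`. -/
theorem gc (r : ℕ) (hr : 3 ≤ r) (v : ℕ) : ∀ j, v ≤ alm r j ↔ F r v ≤ j := by
  induction v using Nat.strong_induction_on with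
  | _ v ih =>
    match v, ih with
    | 0, _ => intro j; simp [F0]
    | 1, _ =>
      intro j
      rw [F1]
      constructor
      · intro h
        rcases Nat.eq_zero_or_pos j with rfl | h0
        · rw [alm0] at h; omega
        · exact h0
      · exact alm_pos r j
    | 2, _ =>
      intro j
      rw [F2]
      constructor
      · intro h
        have := alm_le' r j
        omega
      · intro h
        rw [← alm2 r]; exact alm_mono r h
    | w + 3, ih =>
      intro j
      have hF : F r (w + 3) = B r (w + 3) := F_ge r _ (by omega)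
      -- first occurrence of `w + 2` comes before
      have hlt : F r (w + 2) < F r (w + 3) ∧ 4 ≤ F r (w + 3) := by
        match w, ih with
        | 0, _ => rw [F2, F3 r hr]; omega
        | w + 1, ih =>
          have h4 : F r (w + 3) < F r (w + 4) := by
            rw [F_ge r (w + 3) (by omega), F_ge r (w + 4) (by omega)]
            have h1 : B r (w + 4) + alm r (w + 3 + 1 - r) = B r (w + 3) + alm r (w + 3 + 1) :=
              B_succ r (w + 3) (by omega)
            have h2 : alm r (w + 3 + 1 - r) < alm r (w + 3 + 1) := by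
              by_cases hc : w + 3 + 1 - r = 0
              · rw [hc, alm0]; exact alm_pos r _ (by omega)
              · set u := alm r (w + 3 + 1 - r) with hu
                have hule : u ≤ w + 3 + 1 - r := alm_le' r _
                have h5 := (ih u (by omega) (w + 3 + 1 - r)).1 le_rfl
                have h6 := F_succ_le r u hr
                exact (ih (u + 1) (by omega) (w + 3 + 1)).2 (by omega)
            omega
          have h5 := (ih 3 (by omega) (F r (w + 3))).1
            (((by omega : 3 ≤ w + 3)).trans ((ih (w + 3) (by omega) _).2 le_rfl))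
          rw [F3 r hr] at h5
          constructor
          · exact h4
          · show 4 ≤ F r (w + 4)
            omega
      have hprev := ih (w + 2) (by omega)
      -- value on `[F (w+2), F (w+3))`
      have hval : ∀ t, F r (w + 2) + t < F r (w + 3) → alm r (F r (w + 2) + t) = w + 2 := by
        intro t
        induction t with
        | zero =>
          intro _
          have h1 := (hprev (F r (w + 2))).2 le_rfl
          rw [Nat.add_zero]
          refine le_antisymm ?_ h1
          have hpos : 1 ≤ F r (w + 2) := by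
            rcases Nat.eq_zero_or_pos (F r (w + 2)) with h0 | h0
            · rw [h0, alm0] at h1; omega
            · exact h0
          have h2 : ¬ (w + 2 ≤ alm r (F r (w + 2) - 1)) := by
            rw [hprev]; omega
          have h3 := alm_step' r (F r (w + 2) - 1)
          rw [Nat.sub_add_cancel hpos] at h3
          omega
        | succ t iht =>
          intro ht
          have h1 := iht (by omega)
          have e : F r (w + 2) + (t + 1) = F r (w + 2) + t + 1 := by ring
          by_cases h4 : 4 ≤ F r (w + 2) + t + 1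
          · rw [e, alm_step r _ h4]
            have e2 : F r (w + 2) + t + 1 - 1 = F r (w + 2) + t := by omega
            rw [e2, h1, if_neg]
            have e3 : w + 2 + 1 = w + 3 := rfl
            rw [e3, ← hF]
            omega
          · -- then `w = 0` and the index is `3`
            have hF2 : 2 ≤ F r (w + 2) := by
              have h5 := (ih 2 (by omega) (F r (w + 2))).1
                ((by omega : 2 ≤ w + 2).trans ((hprev _).2 le_rfl))
              rwa [F2] at h5
            have h6 : F r (w + 2) + t + 1 = 3 := by omega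
            have h7 : F r (w + 2) + t = 2 := by omega
            rw [e, h6, alm3]
            rw [h7, alm2] at h1
            exact h1
      have hlast : alm r (F r (w + 3) - 1) = w + 2 := by
        have := hval (F r (w + 3) - 1 - F r (w + 2)) (by omega)
        have e : F r (w + 2) + (F r (w + 3) - 1 - F r (w + 2)) = F r (w + 3) - 1 := by omega
        rwa [e] at this
      have hnew : alm r (F r (w + 3)) = w + 3 := by
        rw [alm_step r _ hlt.2, hlast, if_pos]
        rw [hF]
      constructor
      · intro h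
        by_contra hc
        have := alm_mono r (show j ≤ F r (w + 3) - 1 by omega)
        omega
      · intro h
        rw [← hnew]
        exact alm_mono r h

theorem alm_F (r : ℕ) (hr : 3 ≤ r) (v : ℕ) : alm r (F r v) = v := by
  have h1 := (gc r hr v (F r v)).2 le_rfl
  refine le_antisymm ?_ h1
  rcases Nat.eq_zero_or_pos (F r v) with h0 | h0
  · rw [h0, alm0]; omega
  · have h2 : ¬ (v ≤ alm r (F r v - 1)) := by
      rw [gc r hr]; omega
    have h3 := alm_step' r (F r v - 1)
    rw [Nat.sub_add_cancel h0] at h3
    omega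

theorem isSolution (r : ℕ) (hr : 3 ≤ r) : IsSolution r (alm r) := by
  refine ⟨alm0 r, alm_pos r, fun n _ => alm_mono r (Nat.le_succ n), ?_⟩
  intro n hn
  show alm r (B r n) = n
  by_cases h3 : 3 ≤ n
  · rw [← F_ge r n h3]; exact alm_F r hr n
  · obtain ⟨s, rfl⟩ := Nat.exists_eq_add_of_le' hr
    have h2 : B (s + 3) 3 + alm (s + 3) (2 + 1 - (s + 3)) = B (s + 3) 2 + alm (s + 3) 3 :=
      B_succ (s + 3) 2 (by omega)
    have h1 : B (s + 3) 2 + alm (s + 3) (1 + 1 - (s + 3)) = B (s + 3) 1 + alm (s + 3) 2 :=
      B_succ (s + 3) 1 (by omega)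
    have e1 : 2 + 1 - (s + 3) = 0 := by omega
    have e2 : 1 + 1 - (s + 3) = 0 := by omega
    rw [e1, alm0, B3 _ hr, alm3] at h2
    rw [e2, alm0, alm2] at h1
    have : n = 1 ∨ n = 2 := by omega
    rcases this with rfl | rfl
    · have : B (s + 3) 1 = 1 := by omega
      rw [this, alm1]
    · have : B (s + 3) 2 = 3 := by omega
      rw [this, alm3]

theorem IsSolution.monotone {r : ℕ} {b : ℕ → ℕ} (hb : IsSolution r b) : Monotone b := by
  apply monotone_nat_of_le_succ
  intro n
  rcases Nat.eq_zero_or_pos n with rfl | h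
  · rw [hb.zero]; exact Nat.zero_le _
  · exact hb.mono n h

theorem IsSolution.one {r : ℕ} {b : ℕ → ℕ} (hb : IsSolution r b) (hr : 1 ≤ r) : b 1 = 1 := by
  obtain ⟨s, rfl⟩ := Nat.exists_eq_add_of_le' hr
  have h := hb.eq 1 le_rfl
  rw [Finset.sum_range_succ'] at h
  have e : ∑ i ∈ range s, b (1 - (i + 1)) = 0 := by
    apply Finset.sum_eq_zero
    intro i _
    have : 1 - (i + 1) = 0 := by omega
    rw [this, hb.zero]
  rw [e] at h
  have h1 : b (b 1) = 1 := by simpa using h
  have h2 := hb.pos 1 le_rfl
  have h3 := hb.monotone h2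
  omega

theorem IsSolution.two {r : ℕ} {b : ℕ → ℕ} (hb : IsSolution r b) (hr : 2 ≤ r) :
    2 ≤ b 2 := by
  obtain ⟨s, rfl⟩ := Nat.exists_eq_add_of_le' hr
  have h := hb.eq 2 (by norm_num)
  rw [Finset.sum_range_succ', Finset.sum_range_succ'] at h
  have e : ∑ i ∈ range s, b (2 - (i + 1 + 1)) = 0 := by
    apply Finset.sum_eq_zero
    intro i _
    have : 2 - (i + 1 + 1) = 0 := by omega
    rw [this, hb.zero]
  rw [e] at h
  have h1 : b (b 1 + b 2) = 2 := by simpa using h
  have h2 := hb.pos 2 (by norm_num)
  rw [hb.one (by omega)] at h1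
  by_contra hc
  have h3 : b 2 = 1 := by omega
  rw [h3] at h1
  have h4 : b 2 = 2 := h1
  omega

theorem lexmin (r : ℕ) (hr : 3 ≤ r) (b : ℕ → ℕ) (hb : IsSolution r b) (n : ℕ)
    (h : ∀ i, i < n → b i = alm r i) : alm r n ≤ b n := by
  match n, h with
  | 0, _ => rw [alm0]; exact Nat.zero_le _
  | 1, _ => rw [alm1, hb.one (by omega)]
  | 2, _ => rw [alm2]; exact hb.two (by omega)
  | 3, h =>
    have h2 := h 2 (by norm_num)
    rw [alm2] at h2
    rw [alm3, ← h2]
    exact hb.mono 2 (by norm_num)
  | m + 4, h =>
    have h1 := h (m + 3) (by omega)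
    have h2 := hb.mono (m + 3) (by omega)
    rw [alm_step r (m + 4) (by omega)]
    have e : m + 4 - 1 = m + 3 := by omega
    rw [e]
    split_ifs with hc
    · by_contra hlt
      have h3 : b (m + 4) = alm r (m + 3) := by
        have : b (m + 3 + 1) = b (m + 4) := rfl
        omega
      have h4 := hb.eq (alm r (m + 3) + 1) (by omega)
      have h5 : ∑ i ∈ range r, b (alm r (m + 3) + 1 - i) = m + 4 := by
        have h6 : ∑ i ∈ range r, b (alm r (m + 3) + 1 - i) = B r (alm r (m + 3) + 1) := by
          unfold B
          apply Finset.sum_congr rfl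
          intro i _
          apply h
          have := alm_le r m
          omega
        rw [h6, ← hc]
      rw [h5] at h4
      omega
    · have : b (m + 3 + 1) = b (m + 4) := rfl
      omega

theorem isAlmostGolomb (r : ℕ) (hr : 3 ≤ r) : IsAlmostGolomb r (alm r) :=
  ⟨isSolution r hr, lexmin r hr⟩

theorem unique (r : ℕ) (hr : 3 ≤ r) (a : ℕ → ℕ) (ha : IsAlmostGolomb r a) : a = alm r := by
  funext n
  induction n using Nat.strong_induction_on with
  | _ n ih =>
    apply le_antisymm
    · exact ha.2 (alm r) (isSolution r hr) n (fun i hi => (ih i hi).symm)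
    · exact lexmin r hr a ha.1 n ih

/-! ### The main inequality -/

theorem main (r : ℕ) (hr : 5 ≤ r) : ∀ u, 1 ≤ u → F r (u + 1) ≤ F r u + alm r r := by
  have hr3 : 3 ≤ r := by omega
  have hK3 : 3 ≤ alm r r := (gc r hr3 3 r).2 (by rw [F3 r hr3]; exact hr)
  have hKr : alm r r ≤ r - 1 := by
    obtain ⟨m, rfl⟩ := Nat.exists_eq_add_of_le' hr3
    have := alm_le (m + 3) m
    omega
  intro u
  induction u using Nat.strong_induction_on with
  | _ u ih =>
    intro hu
    by_cases hu3 : u < 3
    · have : u = 1 ∨ u = 2 := by omega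
      rcases this with rfl | rfl
      · rw [F1, F2]; omega
      · rw [F2, F3 r hr3]; omega
    rw [F_ge r u (by omega), F_ge r (u + 1) (by omega)]
    have hB := B_succ r u (by omega)
    suffices h : alm r (u + 1) ≤ alm r (u + 1 - r) + alm r r by omega
    by_cases hur : u + 1 ≤ r
    · have := alm_mono r hur
      omega
    by_contra hlt
    set K := alm r r with hK
    set m := alm r (u + 1 - r) + 1 with hm
    have hm1 : m + K ≤ alm r (u + 1) := by omega
    have hpos : 1 ≤ alm r (u + 1 - r) := alm_pos r _ (by omega)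
    have hm2 : F r (m + K) ≤ u + 1 := (gc r hr3 _ _).1 hm1
    have hm3 : ¬ (F r m ≤ u + 1 - r) := by
      rw [← gc r hr3]; omega
    have hle : alm r (u + 1 - r) ≤ u + 1 - r := alm_le' r _
    -- it suffices to show `F (m + K) ≥ F m + r`
    suffices h : F r m + r ≤ F r (m + K) by omega
    -- increments over `K` steps
    have hinc : ∀ j, 1 ≤ j → j ≤ m → alm r j + 1 ≤ alm r (j + K) := by
      intro j hj1 hj2
      have h1 : alm r j ≤ j := alm_le' r j
      have h2 := ih (alm r j) (by omega) (alm_pos r j hj1)
      have h3 := (gc r hr3 (alm r j) j).1 le_rfl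
      exact (gc r hr3 _ _).2 (by omega)
    have hBK : r + 1 ≤ B r (K + 1) := by
      have h1 : ¬ (K + 1 ≤ alm r r) := by omega
      rw [gc r hr3, F_ge r _ (by omega)] at h1
      omega
    by_cases hm4 : m = 2
    · rw [hm4, F2, F_ge r _ (by omega)]
      have h1 := B_succ r (K + 1) (by omega)
      have e : 2 + K = K + 1 + 1 := by ring
      rw [e]
      have h2 : alm r (K + 1 + 1 - r) ≤ 1 := by
        have h3 : K + 1 + 1 - r ≤ 1 := by omega
        have h4 := alm_mono r h3
        rwa [alm1] at h4
      have h3 : 2 ≤ alm r (K + 1 + 1) := by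
        rw [← alm2 r]; exact alm_mono r (by omega)
      omega
    have hm5 : 3 ≤ m := by omega
    rw [F_ge r m hm5, F_ge r (m + K) (by omega)]
    by_cases hmr : r ≤ m + K
    · -- termwise comparison
      have h1 : ∑ i ∈ range r, (alm r (m - i) + 1) ≤ ∑ i ∈ range r, alm r (m + K - i) := by
        apply Finset.sum_le_sum
        intro i hi
        have hi' := Finset.mem_range.1 hi
        by_cases him : i < m
        · have h2 := hinc (m - i) (by omega) (by omega)
          have e : m - i + K = m + K - i := by omega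
          rwa [e] at h2
        · have e : m - i = 0 := by omega
          rw [e, alm0]
          have := alm_pos r (m + K - i) (by omega)
          omega
      rw [Finset.sum_add_distrib] at h1
      simpa [B] using h1
    · -- comparison with the beginning
      have h1 : ∀ t, t ≤ K → B r m + B r (1 + t) ≤ B r (m + t) + B r 1 := by
        intro t
        induction t with
        | zero => intro _; simp
        | succ t iht =>
          intro ht
          have h2 := iht (by omega)
          have h3 := B_succ r (m + t) (by omega)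
          have h4 := B_succ r (1 + t) (by omega)
          have e1 : m + t + 1 - r = 0 := by omega
          have e2 : 1 + t + 1 - r = 0 := by omega
          rw [e1, alm0] at h3
          rw [e2, alm0] at h4
          have h5 : alm r (1 + t + 1) ≤ alm r (m + t + 1) := alm_mono r (by omega)
          have e3 : m + (t + 1) = m + t + 1 := by ring
          have e4 : 1 + (t + 1) = 1 + t + 1 := by ring
          rw [e3, e4]
          omega
      have h2 := h1 K le_rfl
      have h3 : B r 1 = 1 := by
        have h4 : B r 1 + alm r (0 + 1 - r) = B r 0 + alm r 1 := B_succ r 0 (by omega)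
        have e : 0 + 1 - r = 0 := by omega
        have h5 : B r 0 = 0 := by
          unfold B
          apply Finset.sum_eq_zero
          intro i _
          have : 0 - i = 0 := by omega
          rw [this, alm0]
        rw [e, alm0, h5, alm1] at h4
        omega
      have e : 1 + K = K + 1 := by ring
      rw [e] at h2
      omega

theorem N_eq (r : ℕ) (hr : 3 ≤ r) (n : ℕ) (hn : 1 ≤ n) :
    N (alm r) n = ((F r (n + 1) - F r n : ℕ) : ℕ∞) := by
  have : {i | 1 ≤ i ∧ alm r i = n} = ((Finset.Ico (F r n) (F r (n + 1)) : Finset ℕ) : Set ℕ) := by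
    ext i
    simp only [Set.mem_ofPred_eq, Finset.coe_Ico, Set.mem_Ico]
    have h1 := gc r hr n i
    have h2 := gc r hr (n + 1) i
    constructor
    · rintro ⟨h3, h4⟩
      constructor
      · exact h1.1 h4.ge
      · by_contra hc
        have := h2.2 (by omega)
        omega
    · rintro ⟨h3, h4⟩
      have h5 := h1.2 h3
      have h6 : ¬ (n + 1 ≤ alm r i) := by rw [h2]; omega
      refine ⟨?_, by omega⟩
      by_contra hc
      have : i = 0 := by omega
      rw [this, alm0] at h5
      omega
  unfold N
  rw [this, Set.encard_coe_eq_coe_finsetCard, Nat.card_Ico]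

theorem N_top (r : ℕ) (hr : 5 ≤ r) : N (alm r) (r - 1) = (alm r r : ℕ∞) := by
  rw [N_eq r (by omega) (r - 1) (by omega)]
  have e : r - 1 + 1 = r := by omega
  have h := B_succ r (r - 1) (by omega)
  rw [e, Nat.sub_self, alm0] at h
  rw [e, F_ge r r (by omega), F_ge r (r - 1) (by omega)]
  congr 1
  omega

/-- For every `r ≥ 5` the almost Golomb sequence `a` of order `r` exists and is unique, its largest
multiplicity is the multiplicity of `r - 1`, that is `M(r) = N_r(r-1)`, and this number is finite. The
last two items identify the sequence: the minimality condition holds literally for every `n ≥ 3`, and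
`N_r(m) = a(m+1) - a(m+1-r)` for `m ≥ 3`. -/
theorem result (r : ℕ) (hr : 5 ≤ r) :
    (∃! a : ℕ → ℕ, IsAlmostGolomb r a) ∧
    ∀ a : ℕ → ℕ, IsAlmostGolomb r a →
      M a = N a (r - 1) ∧ N a (r - 1) < ⊤ ∧
      (∀ n, 3 ≤ n → ¬ ∃ m, a (n - 1) ≤ m ∧ m < a n ∧
        a (m + ∑ i ∈ Ico 1 r, a (n - i)) = n) ∧
      (∀ m, 3 ≤ m → N a m = ((a (m + 1) - a (m + 1 - r) : ℕ) : ℕ∞)) := by
  have hr3 : 3 ≤ r := by omega
  refine ⟨⟨alm r, isAlmostGolomb r hr3, fun a ha => unique r hr3 a ha⟩, ?_⟩
  intro a ha
  rw [unique r hr3 a ha]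
  refine ⟨?_, ?_, ?_, ?_⟩
  · apply le_antisymm
    · refine iSup_le fun n => iSup_le fun hn => ?_
      rw [N_top r hr, N_eq r hr3 n hn]
      have := main r hr n hn
      exact_mod_cast (by omega : F r (n + 1) - F r n ≤ alm r r)
    · exact le_iSup_of_le (r - 1) (le_iSup_of_le (by omega) le_rfl)
  · rw [N_top r hr]; exact ENat.natCast_lt_top _
  · rintro n hn ⟨m, h1, h2, h3⟩
    have h4 := alm_step' r (n - 1)
    rw [Nat.sub_add_cancel (by omega : 1 ≤ n)] at h4
    have h5 : B r n = alm r n + ∑ i ∈ Ico 1 r, alm r (n - i) := by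
      unfold B
      rw [Finset.range_eq_Ico, Finset.sum_eq_sum_Ico_succ_bot (by omega)]
      rfl
    have h6 : B r n = m + ∑ i ∈ Ico 1 r, alm r (n - i) + 1 := by omega
    rw [← F_ge r n hn] at h6
    have h7 : ¬ (n ≤ alm r (m + ∑ i ∈ Ico 1 r, alm r (n - i))) := by
      rw [gc r hr3]; omega
    omega
  · intro m hm
    rw [N_eq r hr3 m (by omega), F_ge r m hm, F_ge r (m + 1) (by omega)]
    have := B_succ r m (by omega)
    have h2 : alm r (m + 1 - r) ≤ alm r (m + 1) := alm_mono r (by omega)
    congr 1
    omega

end Pool.Agent.Results.MP_c02c06_co.MaxMult
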